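import Pool.Agent.N849.CV.C2b

/-!
CV/C2, part 3: the places over finite points, and the sum over all places.
-/

set_option autoImplicit false
set_option linter.unusedSectionVars false

open FF Pool.Agent.W603.LV Pool.Agent.Y184.NT Pool.Agent.N162.CV IntermediateField

namespace Pool.Agent.N849.CV

section places

variable {Ω E : Type} [Field Ω] [Algebra ℂ Ω] [Field E] [Algebra ℂ E] [Algebra Ω E]
  [IsScalarTower ℂ Ω E] [IsAlgClosed Ω] [IsFF Ω E]

/-- the function of the residue theorem -/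
noncomputable def uu (F : MvPolynomial (Fin 4) ℂ) (P : MvPolynomial (Fin 4) Ω) (X : Fin 4 → E)
    (δ : Fin 2 → Derivation ℂ E E) (θ : Derivation Ω E E) : E :=
  MvPolynomial.aeval X P * W X (fun j => δ 0 (X j)) (fun j => δ 1 (X j)) (fun j => θ (X j)) /
    MvPolynomial.aeval X F

/-- the places over finite points -/
theorem fin_place (ha : StDERa) (hb : StDERb) {F : MvPolynomial (Fin 4) ℂ} {d : ℕ}
    (hF : F.IsHomogeneous d) {D : Fin 2 → Derivation ℂ Ω Ω} {δ : Fin 2 → Derivation ℂ E E}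
    (hδ : ∀ i a, δ i (algebraMap Ω E a) = algebraMap Ω E (D i a)) {θ : Derivation Ω E E}
    {X : Fin 4 → E} (hθ : θ (X 1) = 1) (hδx : ∀ i, δ i (X 1) = 0)
    (P : MvPolynomial (Fin 4) Ω) {v : Place Ω E} {p : Fin 4 → Ω} (hp : ∀ j, Val v (X j) (p j))
    (htr : X 1 - algebraMap Ω E (p 1) ≠ 0) (hf : MvPolynomial.aeval X F ≠ 0) :
    (v.ord (MvPolynomial.aeval X F) = 0 →
      Val v ((X 1 - algebraMap Ω E (p 1)) * uu F P X δ θ) 0) ∧
    (0 < v.ord (MvPolynomial.aeval X F) → MvPolynomial.aeval p F = 0 ∧ ∀ c : Fin 4 → Ω,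
      ∑ l, MvPolynomial.aeval p (MvPolynomial.pderiv l F) * c l = 1 →
      Val v ((X 1 - algebraMap Ω E (p 1)) * uu F P X δ θ)
        (-((v.ord (MvPolynomial.aeval X F) : Ω) / (v.ord (X 1 - algebraMap Ω E (p 1)) : Ω) *
          ((rows c p D).det * MvPolynomial.eval p P)))) := by
  obtain ⟨t, ht⟩ : ∃ t, t = X 1 - algebraMap Ω E (p 1) := ⟨_, rfl⟩
  rw [← ht] at htr ⊢
  have htv : 0 < v.ord t := by
    have h1 := (hp 1).resolve_left (by rwa [ht] at htr)
    rw [← ht] at h1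
    omega
  have hθt : θ t = 1 := by
    rw [ht, map_sub, hθ, θ.map_algebraMap, sub_zero]
  obtain ⟨δ', hδ'⟩ : ∃ δ' : Fin 2 → Derivation ℂ E E, δ' = fun i =>
    δ i + (algebraMap Ω E (D i (p 1))) • (θ.restrictScalars ℂ) := ⟨_, rfl⟩
  have hδ'a : ∀ i g, δ' i g = δ i g + algebraMap Ω E (D i (p 1)) * θ g := by
    intro i g
    rw [hδ']
    rfl
  have hδ'e : ∀ i a, δ' i (algebraMap Ω E a) = algebraMap Ω E (D i a) := by
    intro i a
    rw [hδ'a, hδ, θ.map_algebraMap, mul_zero, add_zero]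
  have hδ't : ∀ i, δ' i t = 0 := by
    intro i
    rw [hδ'a, hθt, ht, map_sub, hδx, hδ]
    ring
  have hmain : t * uu F P X δ θ = MvPolynomial.aeval X P *
      (W X (fun j => δ' 0 (X j)) (fun j => δ' 1 (X j)) (fun j => t * θ (X j)) /
        MvPolynomial.aeval X F) := by
    have h1 : W X (fun j => δ' 0 (X j)) (fun j => δ' 1 (X j)) (fun j => t * θ (X j)) =
        t * W X (fun j => δ 0 (X j)) (fun j => δ 1 (X j)) (fun j => θ (X j)) := by
      rw [← W_row t (algebraMap Ω E (D 0 (p 1))) (algebraMap Ω E (D 1 (p 1)))]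
      simp only [hδ'a]
    rw [h1]
    unfold uu
    ring
  obtain ⟨h1, h2⟩ := local_val ha hb hF hδ'e htv hθt hδ't hp hf
  have hPv := Val.aeval hp P
  rw [hmain]
  constructor
  · intro h0
    exact Val.reg_mul hPv.reg (h1 h0)
  · intro hk
    obtain ⟨hFp, h3⟩ := h2 hk
    refine ⟨hFp, fun c hc => ?_⟩
    have h4 := hPv.mul (h3 c hc)
    have h5 : MvPolynomial.eval p P * ((v.ord (MvPolynomial.aeval X F) : Ω) / (v.ord t : Ω) *
        W p (fun j => D 0 (p j)) (fun j => D 1 (p j)) c) =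
        -((v.ord (MvPolynomial.aeval X F) : Ω) / (v.ord t : Ω) *
          ((rows c p D).det * MvPolynomial.eval p P)) := by
      rw [det_rows, W_cyc c p]
      ring
    rwa [h5] at h4

theorem c2_aux (ha : StDERa) (hb : StDERb) (hc : StDERc) (hr : StRES)
    {F : MvPolynomial (Fin 4) ℂ} {d m : ℕ} (hs : Sm F) (hF : F.IsHomogeneous d) (hd : m + 4 = d)
    (hF1 : MvPolynomial.eval ![0, 0, 0, 1] F ≠ 0) {X : Fin 4 → E} (hX : Good Ω X)
    (hf : MvPolynomial.aeval X F ≠ 0) (D : Fin 2 → Derivation ℂ Ω Ω)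
    (c : (Fin 4 → Ω) → Fin 4 → Ω)
    (hcc : ∀ p, p 0 = 1 → MvPolynomial.aeval p F = 0 →
      ∑ l, MvPolynomial.aeval p (MvPolynomial.pderiv l F) * c p l = 1)
    (P : MvPolynomial (Fin 4) Ω) (hP : P.IsHomogeneous m) (Q : Finset (Fin 4 → Ω))
    (hQ : ∀ p, mu X (MvPolynomial.aeval X F) p ≠ 0 → p ∈ Q) :
    ∑ p ∈ Q, (mu X (MvPolynomial.aeval X F) p : Ω) *
      ((rows (c p) p D).det * MvPolynomial.eval p P) = 0 := by
  classical
  have hc0 : CharZero Ω := charZ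
  obtain ⟨⟨θ, hθ⟩, hder⟩ := hc Ω E (X 1) hX.tr
  choose δ hδ hδx using fun i : Fin 2 => hder (D i)
  have hval : ∀ v : Place Ω E, Ge v 0 (X 1) → ∃ p : Fin 4 → Ω, ∀ j, Val v (X j) (p j) := by
    intro v hv
    choose p hp using fun j => exists_const v (hX.fin v hv j)
    exact ⟨p, hp⟩
  choose! pt hpt using hval
  have hpt0 : ∀ v, Ge v 0 (X 1) → pt v 0 = 1 := by
    intro v hv
    refine (hpt v hv 0).uniq ?_
    rw [hX.one]
    have := Val.const (v := v) (1 : Ω)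
    rwa [map_one] at this
  obtain ⟨f, hfd⟩ : ∃ f : E, f = MvPolynomial.aeval X F := ⟨_, rfl⟩
  rw [← hfd] at hf hQ ⊢
  have hfr : ∀ v : Place Ω E, Ge v 0 (X 1) → 0 ≤ v.ord f := by
    intro v hv
    have h1 := Val.reg (Val.aevalC (E := E) (hpt v hv) F)
    rw [← hfd] at h1
    exact h1.resolve_left hf
  have hx : ∀ a : Ω, X 1 - algebraMap Ω E a ≠ 0 := by
    intro a h0
    apply hX.tr
    rw [sub_eq_zero.1 h0]
    exact isAlgebraic_algebraMap a
  -- the zeros of `f`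
  obtain ⟨Z, hZ⟩ : ∃ Z : Finset (Place Ω E), ∀ v, v ∈ Z ↔ Ge v 0 (X 1) ∧ 0 < v.ord f := by
    by_cases halg : IsAlgebraic Ω f
    · refine ⟨∅, fun v => ?_⟩
      rw [v.ord_eq_zero_of_isAlgebraic hf halg]
      simp
    · obtain ⟨S, hS, -, -⟩ := zeros (k := Ω) (K := E) (f := f) halg
      refine ⟨S.filter fun v => Ge v 0 (X 1), fun v => ?_⟩
      rw [Finset.mem_filter, hS]
      exact and_comm
  obtain ⟨Gp, hGp⟩ : ∃ Gp : (Fin 4 → Ω) → Ω, Gp = fun p =>
    (rows (c p) p D).det * MvPolynomial.eval p P := ⟨_, rfl⟩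
  obtain ⟨rho, hrho⟩ : ∃ rho : Place Ω E → Ω, rho = fun v => if v ∈ Z then
    -((v.ord f : Ω) / (v.ord (X 1 - algebraMap Ω E (pt v 1)) : Ω) * Gp (pt v)) else 0 := ⟨_, rfl⟩
  obtain ⟨-, hres, -⟩ := hr Ω E (X 1) hX.tr (uu F P X δ θ) (fun v => pt v 1) rho
    (fun v hv => hpt v hv 1)
    (by
      intro v hv
      obtain ⟨h1, h2⟩ := fin_place ha hb hF hδ hθ hδx P (hpt v hv) (hx _) (by rwa [← hfd])
      rw [← hfd] at h1 h2
      show Val v ((X 1 - algebraMap Ω E (pt v 1)) * uu F P X δ θ) (rho v)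
      rw [hrho]
      beta_reduce
      by_cases hvZ : v ∈ Z
      · rw [if_pos hvZ, hGp]
        obtain ⟨h3, h4⟩ := h2 ((hZ v).1 hvZ).2
        exact h4 _ (hcc _ (hpt0 v hv) h3)
      · rw [if_neg hvZ]
        apply h1
        by_contra hne
        apply hvZ
        rw [hZ]
        exact ⟨hv, lt_of_le_of_ne (hfr v hv) (Ne.symm hne)⟩)
    (by
      intro v hv
      have h1 := inf_place ha hb hs hF hd hF1 hδ hX.one hθ hδx hP hv (hX.inf v hv)
        (by rwa [← hfd])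
      exact h1)
  have hsum := hres Z (fun v hv => ((hZ v).1 hv).1) (fun v _ hne => by
    by_contra hvZ
    apply hne
    rw [hrho]
    beta_reduce
    rw [if_neg hvZ])
  have hsum2 : ∑ v ∈ Z, (v.ord f : Ω) * Gp (pt v) = 0 := by
    rw [← neg_eq_zero, ← hsum, ← Finset.sum_neg_distrib]
    refine Finset.sum_congr rfl fun v hv => ?_
    have h0 := ((hZ v).1 hv).1
    have h1 := (hpt v h0 1).resolve_left (hx _)
    have h2 : (v.ord (X 1 - algebraMap Ω E (pt v 1)) : Ω) ≠ 0 := by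
      have : v.ord (X 1 - algebraMap Ω E (pt v 1)) ≠ 0 := by omega
      exact_mod_cast this
    rw [hrho]
    beta_reduce
    rw [if_pos hv]
    field_simp
  -- the multiplicities
  have hmu : ∀ p, mu X f p = ∑ v ∈ Z.filter (fun v => pt v = p), v.ord f := by
    intro p
    unfold mu
    apply finsum_mem_eq_sum_of_inter_support_eq
    ext v
    simp only [Set.mem_inter_iff, Set.mem_ofPred_eq, Function.mem_support, Finset.coe_filter]
    constructor
    · rintro ⟨h1, h2⟩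
      have h3 : Ge v 0 (X 1) := Val.reg (h1 1)
      refine ⟨⟨(hZ v).2 ⟨h3, lt_of_le_of_ne (hfr v h3) (Ne.symm h2)⟩, ?_⟩, h2⟩
      funext j
      exact (hpt v h3 j).uniq (h1 j)
    · rintro ⟨⟨h1, h2⟩, h3⟩
      refine ⟨fun j => ?_, h3⟩
      rw [← h2]
      exact hpt v ((hZ v).1 h1).1 j
  have hmaps : ∀ v ∈ Z, pt v ∈ Q := by
    intro v hv
    apply hQ
    rw [hmu]
    refine (Finset.sum_pos (fun w hw => ?_) ⟨v, ?_⟩).ne'
    · exact ((hZ w).1 (Finset.mem_filter.1 hw).1).2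
    · exact Finset.mem_filter.2 ⟨hv, rfl⟩
  rw [← hsum2, ← Finset.sum_fiberwise_of_maps_to hmaps]
  refine Finset.sum_congr rfl fun p _ => ?_
  rw [hmu, Int.cast_sum, Finset.sum_mul]
  refine Finset.sum_congr rfl fun v hv => ?_
  rw [(Finset.mem_filter.1 hv).2, hGp]

end places

/-- **CV/C2** -/
theorem c2_ (ha : StDERa) (hb : StDERb) (hc : StDERc) (hr : StRES) : StC2 := by
  intro Ω E _ _ _ _ _ _ F d m hs hF hd hF1 X hX hf D c hcc P hP Q hQ
  let _ : Algebra ℂ E := ((algebraMap Ω E).comp (algebraMap ℂ Ω)).toAlgebra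
  have : IsScalarTower ℂ Ω E := IsScalarTower.of_algebraMap_eq fun _ => rfl
  have h1 : Pool.Agent.N162.CV.cmp Ω F X = MvPolynomial.aeval X F := by
    unfold Pool.Agent.N162.CV.cmp
    rw [MvPolynomial.aeval_map_algebraMap]
  rw [h1] at hf hQ ⊢
  exact c2_aux ha hb hc hr hs hF hd hF1 hX hf D c hcc P hP Q hQ

end Pool.Agent.N849.CV
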