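import Mathlib
import Pool.Agent.N753.DR.Stm2
import Pool.Agent.N262.DR.Deg

/-!
# CV/CNTC: few members have a small truncated counting function

Project CV (helper753), this file by helper849, after helper262's `N262/DR/Deg`.
-/

set_option autoImplicit false
set_option linter.unusedSectionVars false

namespace Pool.Agent.N849.CVN

open NumberField IsDedekindDomain Module Polynomial Pool.Agent.N753.DR
open Pool.Agent.N262.DR (lN_nonneg sum_under_le over_eq badS_finite pow_bound Bx_finite)
open scoped LinearAlgebra.Projectivization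

theorem cntC (h1 : StmCoreV) (h2 : StmLinkC) (h3 : StmRedC) : StmCntC := by
  classical
  intro K A L _ _ _ _ _ _ _ _ _ _ _ _ hdom m u f hf ψ g hg hwide S κ hκ
  rcases le_or_gt (finrank K L : ℝ) κ with hdk | hdk
  · refine ⟨1, 0, one_pos, fun U hU => ?_⟩
    have he : {P : ℙ K (Fin m → K) | BadC f g S (finrank K L - κ) P ∧
        Height.logHeight P.rep ≤ U} = ∅ := by
      rw [Set.eq_empty_iff_forall_notMem]
      rintro P ⟨⟨M, _, _, _, φ, -, -, W, -, hW⟩, -⟩
      have e1 : 0 ≤ ∑ w ∈ W, lN w := Finset.sum_nonneg fun w _ => lN_nonneg w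
      have e2 : ((finrank K L : ℝ) - κ) * Height.logHeight P.rep ≤ 0 :=
        mul_nonpos_of_nonpos_of_nonneg (by linarith) (Height.logHeight_nonneg _)
      linarith
    rw [he]
    simp
  obtain ⟨Bad0, hB0⟩ := h1 K L m (fun i => ψ (f i)) hwide
  obtain ⟨BadR, C0, hC0, hR⟩ := h3 K m
  obtain ⟨BadL, hL⟩ := h2 K A L hdom m u f hf ψ g hg
  set BadS := (badS_finite (K := K) S).toFinset with hBadS
  set Bad := Bad0 ∪ BadR ∪ BadL ∪ BadS with hBad
  obtain ⟨ν, C1, hν, hcore⟩ := hB0 Bad (fun v hv => by
    simp only [hBad, Finset.mem_union]; tauto) κ hκ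
  set n : ℝ := (finrank ℚ K : ℝ) with hn
  have hn0 : 0 < n := by
    rw [hn]; exact_mod_cast (Module.finrank_pos : 0 < finrank ℚ K)
  set c0 : ℝ := max C0 1 with hc0
  have hc01 : 1 ≤ c0 := le_max_right _ _
  refine ⟨ν / n, |C1| * (2 * c0) ^ |n * m - ν|, by positivity, fun U hU => ?_⟩
  set y : ℝ := Real.exp (U / n) with hy
  have hy1 : 1 ≤ y := Real.one_le_exp (by positivity)
  set B : ℕ := ⌈c0 * y⌉₊ with hB
  have hBl : c0 * y ≤ B := Nat.le_ceil _
  have hBu : (B : ℝ) ≤ 2 * c0 * y := by
    have := Nat.ceil_lt_add_one (a := c0 * y) (by positivity)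
    have : 1 ≤ c0 * y := one_le_mul_of_one_le_of_one_le hc01 hy1
    linarith
  have hyB : y ≤ B := by
    have : 1 * y ≤ c0 * y := mul_le_mul_of_nonneg_right hc01 (by positivity)
    linarith
  have hB1 : 1 ≤ B := by
    have : (1 : ℝ) ≤ B := hy1.trans hyB
    exact_mod_cast this
  have hlog : U ≤ n * Real.log B := by
    have : U / n ≤ Real.log B := by
      rw [← Real.log_exp (U / n)]
      exact Real.log_le_log (Real.exp_pos _) hyB
    rw [div_le_iff₀ hn0] at this
    linarith
  set E := {c ∈ Bx K m B | ∃ W : Finset (HeightOneSpectrum (𝓞 K)),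
      (∀ v ∉ Bad, ∀ w : HeightOneSpectrum (𝓞 L), w.asIdeal.LiesOver v.asIdeal →
        w.valuation L (∑ i, algebraMap K L (c i : K) * ψ (f i)) < 1 → v ∈ W) ∧
      ∑ v ∈ W, lN v ≤ (finrank K L - κ) * ((finrank ℚ K : ℝ) * Real.log B)} with hE
  have hEf : E.Finite := (Bx_finite (K := K) m B).subset fun c hc => hc.1
  set T : Set (ℙ K (Fin m → K)) := {P | BadC f g S (finrank K L - κ) P ∧
    Height.logHeight P.rep ≤ U} with hT
  have key : ∀ P ∈ T, ∃ c ∈ E, ∃ l : K, l ≠ 0 ∧ ∀ i, (c i : K) = l * P.rep i := by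
    rintro P ⟨⟨M, _, _, _, φ, hφ, hker, W, hW, hWs⟩, hht⟩
    obtain ⟨c, l, hl, hcl, hprim, hsz⟩ := hR P.rep P.rep_nonzero
    refine ⟨c, ⟨?_, ?_⟩, l, hl, hcl⟩
    · intro j
      have h4 := hsz j
      have h5 : Real.exp (Height.logHeight P.rep / n) ≤ y :=
        Real.exp_le_exp.mpr (div_le_div_of_nonneg_right hht hn0.le)
      have h6 : (sz (c j) : ℝ) ≤ B := by
        refine h4.trans (le_trans ?_ hBl)
        exact mul_le_mul (le_max_left _ _) h5 (Real.exp_pos _).le (by positivity)
      exact_mod_cast h6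
    · have hmem : (mem f fun i => (c i : K)) = algebraMap K A l * mem f P.rep := by
        unfold mem
        rw [Finset.mul_sum]
        refine Finset.sum_congr rfl fun i _ => ?_
        show (c i : K) • f i = algebraMap K A l * (P.rep i • f i)
        rw [hcl i, mul_smul, Algebra.smul_def l]
      have hlu : IsUnit (algebraMap K A l) := (isUnit_iff_ne_zero.2 hl).map _
      have hker' : RingHom.ker φ = Ideal.span {mem f fun i => (c i : K)} := by
        rw [hker, hmem, Ideal.span_singleton_mul_left_unit hlu]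
      refine ⟨W.image fun u => HeightOneSpectrum.under (𝓞 K) u, ?_, ?_⟩
      · intro v hv w hw hev
        have hvR : v ∉ BadR := fun h => hv (by simp only [hBad, Finset.mem_union]; tauto)
        have hvL : v ∉ BadL := fun h => hv (by simp only [hBad, Finset.mem_union]; tauto)
        have hvS : v ∉ BadS := fun h => hv (by simp only [hBad, Finset.mem_union]; tauto)
        have hev' : w.valuation L (ψ (mem f fun i => (c i : K))) < 1 := by
          have e : ψ (mem f fun i => (c i : K)) = ∑ i, algebraMap K L (c i : K) * ψ (f i) := by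
            unfold mem
            rw [map_sum]
            refine Finset.sum_congr rfl fun i _ => ?_
            rw [map_smul, Algebra.smul_def]
          rw [e]
          exact hev
        obtain ⟨x, hx, hxX, hxg⟩ := hL M φ c hφ hker' v hvL (hprim v hvR) w hw hev'
        have hunder := over_eq hx
        rw [Finset.mem_image]
        refine ⟨x, hW x ⟨?_, hxX, hxg⟩, hunder⟩
        intro p hp hp0 hmem
        apply hvS
        rw [hBadS, Set.Finite.mem_toFinset]
        refine ⟨p, hp, hp0, ?_⟩
        rw [← hunder, HeightOneSpectrum.under_asIdeal, Ideal.under_def, Ideal.mem_comap,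
          map_natCast]
        exact hmem
      · have h4 : ∑ v ∈ W.image (fun u => HeightOneSpectrum.under (𝓞 K) u), lN v ≤
            ∑ u ∈ W, lN u := sum_under_le W _ fun v hv => Finset.mem_image.mp hv
        refine h4.trans (hWs.le.trans ?_)
        exact mul_le_mul_of_nonneg_left (hht.trans hlog) (by linarith)
  choose! F hFE hFl using key
  have hinj : Set.InjOn F T := by
    intro P hP P' hP' hPP
    obtain ⟨l, hl, h⟩ := hFl P hP
    obtain ⟨l', hl', h'⟩ := hFl P' hP'
    rw [← P.mk_rep, ← P'.mk_rep, Projectivization.mk_eq_mk_iff']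
    refine ⟨l⁻¹ * l', ?_⟩
    funext i
    have e : l * P.rep i = l' * P'.rep i := by rw [← h i, ← h' i, hPP]
    rw [Pi.smul_apply, smul_eq_mul, mul_assoc, ← e, ← mul_assoc, inv_mul_cancel₀ hl, one_mul]
  have hmaps : Set.MapsTo F T E := fun P hP => hFE P hP
  refine ⟨Set.Finite.of_injOn hmaps hinj hEf, ?_⟩
  have h4 : (T.ncard : ℝ) ≤ (E.ncard : ℝ) := by
    exact_mod_cast Set.ncard_le_ncard_of_injOn F hFE hinj hEf
  refine h4.trans ((hcore B hB1).trans ?_)
  have h5 := pow_bound (c := 2 * c0) (B := B) (y := y) (E := n * m - ν) (by linarith)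
    (by positivity) hyB hBu
  have h6 : y ^ (n * m - ν) = Real.exp ((m - ν / n) * U) := by
    rw [hy, ← Real.exp_mul]
    congr 1
    field_simp
  rw [h6] at h5
  calc C1 * (B : ℝ) ^ (n * m - ν) ≤ |C1| * (B : ℝ) ^ (n * m - ν) := by
        gcongr; exact le_abs_self _
    _ ≤ |C1| * ((2 * c0) ^ |n * m - ν| * Real.exp ((m - ν / n) * U)) := by gcongr
    _ = _ := by ring

end Pool.Agent.N849.CVN
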