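import Pool.Agent.N162.CV.Stm
import Pool.Agent.Y988.NT.Res

/-!
CV/C2: the null trace of the intersection of a curve with a smooth surface.
-/

set_option autoImplicit false
set_option linter.unusedSectionVars false

open FF Pool.Agent.W603.LV Pool.Agent.Y184.NT Pool.Agent.N162.CV IntermediateField

namespace Pool.Agent.N849.CV

/-! ### values of functions at places -/

section val

variable {Ω E : Type} [Field Ω] [Field E] [Algebra Ω E] {v : Place Ω E}

/-- the function `g` has the value `b` at the place `v` -/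
def Val (v : Place Ω E) (g : E) (b : Ω) : Prop := Ge v 1 (g - algebraMap Ω E b)

theorem Val.reg {g : E} {b : Ω} (h : Val v g b) : Ge v 0 g := by
  have h1 : g = (g - algebraMap Ω E b) + algebraMap Ω E b := by ring
  rw [h1]
  exact (Ge.mono (by norm_num) h).add (Ge.const b)

theorem Val.zero_iff {g : E} : Val v g 0 ↔ Ge v 1 g := by
  unfold Val
  rw [map_zero, sub_zero]

theorem Val.const (b : Ω) : Val v (algebraMap Ω E b) b := by
  unfold Val
  rw [sub_self]
  exact Ge.zero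

theorem Val.add {g h : E} {b c : Ω} (hg : Val v g b) (hh : Val v h c) : Val v (g + h) (b + c) := by
  unfold Val
  rw [map_add, show g + h - (algebraMap Ω E b + algebraMap Ω E c) =
    (g - algebraMap Ω E b) + (h - algebraMap Ω E c) by ring]
  exact Ge.add hg hh

theorem Val.neg {g : E} {b : Ω} (hg : Val v g b) : Val v (-g) (-b) := by
  unfold Val
  rw [map_neg, show -g - -(algebraMap Ω E b) = -(g - algebraMap Ω E b) by ring]
  exact Ge.neg hg

theorem Val.sub {g h : E} {b c : Ω} (hg : Val v g b) (hh : Val v h c) : Val v (g - h) (b - c) := by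
  rw [sub_eq_add_neg, sub_eq_add_neg]
  exact hg.add hh.neg

theorem Val.mul {g h : E} {b c : Ω} (hg : Val v g b) (hh : Val v h c) : Val v (g * h) (b * c) := by
  unfold Val
  rw [map_mul, show g * h - algebraMap Ω E b * algebraMap Ω E c =
    g * (h - algebraMap Ω E c) + (g - algebraMap Ω E b) * algebraMap Ω E c by ring]
  refine Ge.add ?_ ?_
  · have := Ge.mul hg.reg hh
    simpa using this
  · have := Ge.mul hg (Ge.const (P := v) c)
    simpa using this

theorem Val.uniq {g : E} {b c : Ω} (hb : Val v g b) (hc : Val v g c) : b = c := by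
  have h1 := hb.sub hc
  rw [sub_self] at h1
  unfold Val at h1
  rw [zero_sub] at h1
  by_contra hne
  have hne' : b - c ≠ 0 := sub_ne_zero.2 hne
  rcases h1 with h1 | h1
  · rw [neg_eq_zero, map_eq_zero] at h1
    exact hne' h1
  · rw [v.ord_neg, v.ord_const hne'] at h1
    omega

/-- multiplication of a regular function and a function with value zero -/
theorem Val.reg_mul {g h : E} (hg : Ge v 0 g) (hh : Val v h 0) : Val v (g * h) 0 := by
  rw [Val.zero_iff] at hh ⊢
  have := Ge.mul hg hh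
  simpa using this

theorem Val.ord_eq {g : E} {b : Ω} (hg : Val v g b) (hb : b ≠ 0) : g ≠ 0 ∧ v.ord g = 0 := by
  have h0 : g ≠ 0 := by
    rintro rfl
    exact hb (hg.uniq (by simpa using (Val.const (v := v) (0 : Ω))))
  refine ⟨h0, ?_⟩
  have h1 := hg.reg.resolve_left h0
  by_contra hne
  have h2 : Ge v 1 g := Or.inr (by omega)
  exact hb (hg.uniq (Val.zero_iff.2 h2))

theorem Val.inv {g : E} {b : Ω} (hg : Val v g b) (hb : b ≠ 0) : Val v g⁻¹ b⁻¹ := by
  obtain ⟨h0, h1⟩ := hg.ord_eq hb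
  have h2 : Ge v 0 g⁻¹ := Or.inr (by rw [v.ord_inv, h1]; simp)
  have hb' : algebraMap Ω E b ≠ 0 := by rwa [Ne, map_eq_zero]
  unfold Val
  rw [map_inv₀, show g⁻¹ - (algebraMap Ω E b)⁻¹ =
    g⁻¹ * (-(algebraMap Ω E b)⁻¹) * (g - algebraMap Ω E b) by field_simp; ring]
  have h3 : Ge v 0 (-(algebraMap Ω E b)⁻¹) := by
    rw [← map_inv₀]
    exact (Ge.const _).neg
  have := Ge.mul (Ge.mul h2 h3) hg
  simpa using this

/-- the functions with a value, together with their value -/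
def VS (v : Place Ω E) : Subring (E × Ω) where
  carrier := {z | Val v z.1 z.2}
  mul_mem' := fun {a b} ha hb => Val.mul ha hb
  one_mem' := by
    show Val v (1 : E) (1 : Ω)
    have := Val.const (v := v) (1 : Ω)
    rwa [map_one] at this
  add_mem' := fun {a b} ha hb => Val.add ha hb
  zero_mem' := by
    show Val v (0 : E) (0 : Ω)
    have := Val.const (v := v) (0 : Ω)
    rwa [map_zero] at this
  neg_mem' := fun {a} ha => Val.neg ha

theorem Val.det {ι : Type} [Fintype ι] [DecidableEq ι] (A : Matrix ι ι E) (B : Matrix ι ι Ω)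
    (h : ∀ i j, Val v (A i j) (B i j)) : Val v A.det B.det := by
  let M : Matrix ι ι (VS v) := fun i j => ⟨(A i j, B i j), h i j⟩
  have h1 : A = ((RingHom.fst E Ω).comp (VS v).subtype).mapMatrix M := by
    ext i j; rfl
  have h2 : B = ((RingHom.snd E Ω).comp (VS v).subtype).mapMatrix M := by
    ext i j; rfl
  rw [h1, h2, ← RingHom.map_det, ← RingHom.map_det]
  exact (M.det).2

theorem Val.sum {ι : Type} (s : Finset ι) (g : ι → E) (b : ι → Ω) (h : ∀ i ∈ s, Val v (g i) (b i)) :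
    Val v (∑ i ∈ s, g i) (∑ i ∈ s, b i) := by
  classical
  induction s using Finset.induction_on with
  | empty => exact (VS v).zero_mem
  | insert a s ha ih =>
    rw [Finset.sum_insert ha, Finset.sum_insert ha]
    exact (h a (Finset.mem_insert_self a s)).add (ih fun i hi => h i (Finset.mem_insert_of_mem hi))

theorem Val.aeval {n : ℕ} {Y : Fin n → E} {p : Fin n → Ω} (h : ∀ j, Val v (Y j) (p j))
    (P : MvPolynomial (Fin n) Ω) : Val v (MvPolynomial.aeval Y P) (MvPolynomial.eval p P) := by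
  induction P using MvPolynomial.induction_on with
  | C a =>
    rw [MvPolynomial.aeval_C, MvPolynomial.eval_C]
    exact Val.const a
  | add p q hp hq =>
    rw [map_add, map_add]
    exact hp.add hq
  | mul_X p i hp =>
    rw [map_mul, map_mul, MvPolynomial.aeval_X, MvPolynomial.eval_X]
    exact hp.mul (h i)

theorem Val.aevalC [Algebra ℂ Ω] [Algebra ℂ E] [IsScalarTower ℂ Ω E] {n : ℕ} {Y : Fin n → E}
    {p : Fin n → Ω} (h : ∀ j, Val v (Y j) (p j)) (P : MvPolynomial (Fin n) ℂ) :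
    Val v (MvPolynomial.aeval Y P) (MvPolynomial.aeval p P) := by
  have h1 := Val.aeval h (MvPolynomial.map (algebraMap ℂ Ω) P)
  rwa [MvPolynomial.aeval_map_algebraMap, MvPolynomial.eval_map, ← MvPolynomial.aeval_def] at h1

end val

/-! ### determinants of four vectors -/

section det

variable {R : Type} [CommRing R]

/-- the determinant of the matrix with the rows `a`, `b`, `c`, `d` -/
def W (a b c d : Fin 4 → R) : R := (Matrix.of ![a, b, c, d]).det

theorem W_eq (a b c d : Fin 4 → R) : W a b c d =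
    a 0 * (b 1 * (c 2 * d 3 - c 3 * d 2) - b 2 * (c 1 * d 3 - c 3 * d 1) +
      b 3 * (c 1 * d 2 - c 2 * d 1)) -
    a 1 * (b 0 * (c 2 * d 3 - c 3 * d 2) - b 2 * (c 0 * d 3 - c 3 * d 0) +
      b 3 * (c 0 * d 2 - c 2 * d 0)) +
    a 2 * (b 0 * (c 1 * d 3 - c 3 * d 1) - b 1 * (c 0 * d 3 - c 3 * d 0) +
      b 3 * (c 0 * d 1 - c 1 * d 0)) -
    a 3 * (b 0 * (c 1 * d 2 - c 2 * d 1) - b 1 * (c 0 * d 2 - c 2 * d 0) +
      b 2 * (c 0 * d 1 - c 1 * d 0)) := by
  unfold W
  simp [Matrix.det_succ_row_zero, Fin.sum_univ_succ, Fin.succAbove]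
  ring

theorem W_cramer (g c r₁ r₂ r₃ r₄ : Fin 4 → R) :
    (∑ l, g l * c l) * W r₁ r₂ r₃ r₄ = (∑ l, g l * r₁ l) * W c r₂ r₃ r₄ +
      (∑ l, g l * r₂ l) * W r₁ c r₃ r₄ + (∑ l, g l * r₃ l) * W r₁ r₂ c r₄ +
      (∑ l, g l * r₄ l) * W r₁ r₂ r₃ c := by
  simp only [W_eq, Fin.sum_univ_four]
  ring

end det

/-! ### the computation at a place -/

section loc

variable {Ω E : Type} [Field Ω] [Algebra ℂ Ω] [Field E] [Algebra ℂ E] [Algebra Ω E]
  [IsScalarTower ℂ Ω E] [IsAlgClosed Ω] [IsFF Ω E]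

theorem euler_gen {K : Type} [Field K] [Algebra ℂ K] {n d : ℕ} {F : MvPolynomial (Fin n) ℂ}
    (hh : F.IsHomogeneous d) (x : Fin n → K) :
    ∑ l, MvPolynomial.aeval x (MvPolynomial.pderiv l F) * x l = d * MvPolynomial.aeval x F := by
  have h3 := congrArg (MvPolynomial.aeval x) hh.sum_X_mul_pderiv
  rw [map_sum, map_nsmul, nsmul_eq_mul] at h3
  rw [← h3]
  refine Finset.sum_congr rfl fun l _ => ?_
  rw [map_mul, MvPolynomial.aeval_X]
  ring

/-- derivations which kill `t` -/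
theorem val_der (ha : StDERa) {D : Derivation ℂ Ω Ω} {δ : Derivation ℂ E E}
    (hδ : ∀ a, δ (algebraMap Ω E a) = algebraMap Ω E (D a)) {t : E} {v : Place Ω E}
    (ht : 0 < v.ord t) (hδt : δ t = 0) {g : E} {b : Ω} (hg : Val v g b) : Val v (δ g) (D b) := by
  have h1 := ha Ω E D δ hδ t v ht hδt 1 _ hg
  rw [map_sub, hδ] at h1
  exact h1

theorem ord_ne {v : Place Ω E} {t : E} (ht : 0 < v.ord t) : t ≠ 0 := by
  rintro rfl
  rw [v.ord_zero] at ht
  exact lt_irrefl _ ht

theorem charZ : CharZero Ω := charZero_of_injective_algebraMap (algebraMap ℂ Ω).injective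

/-- logarithmic derivatives -/
theorem val_log (hb : StDERb) {θ : Derivation Ω E E} {t : E} {v : Place Ω E}
    (ht : 0 < v.ord t) (hθ : θ t = 1) {g : E} (hg : g ≠ 0) :
    Val v (t * θ g / g) ((v.ord g : Ω) / (v.ord t : Ω)) := by
  have hc : CharZero Ω := charZ
  have h1 := hb Ω E θ t v ht hθ g hg
  have he : (v.ord t : Ω) ≠ 0 := by
    have : v.ord t ≠ 0 := ht.ne'
    exact_mod_cast this
  have h2 : Val v ((v.ord t : E) * (t * θ g / g)) (v.ord g : Ω) := by
    unfold Val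
    rw [map_intCast]
    exact h1
  have h3 := (Val.const (v := v) (v.ord t : Ω)⁻¹).mul h2
  have h4 : algebraMap Ω E (v.ord t : Ω)⁻¹ * ((v.ord t : E) * (t * θ g / g)) = t * θ g / g := by
    have he' : (v.ord t : E) ≠ 0 := by
      rw [← map_intCast (algebraMap Ω E)]
      rwa [Ne, map_eq_zero]
    rw [map_inv₀, map_intCast, ← mul_assoc, inv_mul_cancel₀ he', one_mul]
  rw [h4] at h3
  rwa [div_eq_inv_mul (v.ord g : Ω)]

/-- the derivative of a regular function, times `t`, vanishes -/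
theorem val_tder (hb : StDERb) {θ : Derivation Ω E E} {t : E} {v : Place Ω E}
    (ht : 0 < v.ord t) (hθ : θ t = 1) {g : E} {b : Ω} (hg : Val v g b) : Val v (t * θ g) 0 := by
  have h1 : θ g = θ (g - algebraMap Ω E b) := by
    rw [map_sub, θ.map_algebraMap, sub_zero]
  rw [h1]
  by_cases h0 : g - algebraMap Ω E b = 0
  · rw [h0, map_zero, mul_zero]
    exact (VS v).zero_mem
  · have h2 := val_log hb ht hθ h0
    have h3 := Val.reg_mul h2.reg (Val.zero_iff.2 hg)
    rwa [div_mul_cancel₀ _ h0] at h3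

theorem local_val (ha : StDERa) (hb : StDERb) {F : MvPolynomial (Fin 4) ℂ} {d : ℕ}
    (hF : F.IsHomogeneous d) {D : Fin 2 → Derivation ℂ Ω Ω} {δ : Fin 2 → Derivation ℂ E E}
    (hδ : ∀ i a, δ i (algebraMap Ω E a) = algebraMap Ω E (D i a)) {θ : Derivation Ω E E} {t : E}
    {v : Place Ω E} (ht : 0 < v.ord t) (hθ : θ t = 1) (hδt : ∀ i, δ i t = 0) {Y : Fin 4 → E}
    {p : Fin 4 → Ω} (hY : ∀ j, Val v (Y j) (p j)) (hG : MvPolynomial.aeval Y F ≠ 0) :
    (v.ord (MvPolynomial.aeval Y F) = 0 →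
      Val v (W Y (fun j => δ 0 (Y j)) (fun j => δ 1 (Y j)) (fun j => t * θ (Y j)) /
        MvPolynomial.aeval Y F) 0) ∧
    (0 < v.ord (MvPolynomial.aeval Y F) → MvPolynomial.aeval p F = 0 ∧ ∀ c : Fin 4 → Ω,
      ∑ l, MvPolynomial.aeval p (MvPolynomial.pderiv l F) * c l = 1 →
      Val v (W Y (fun j => δ 0 (Y j)) (fun j => δ 1 (Y j)) (fun j => t * θ (Y j)) /
        MvPolynomial.aeval Y F) ((v.ord (MvPolynomial.aeval Y F) : Ω) / (v.ord t : Ω) *
          W p (fun j => D 0 (p j)) (fun j => D 1 (p j)) c)) := by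
  have hc0 : CharZero Ω := charZ
  set G := MvPolynomial.aeval Y F with hGdef
  have hδY : ∀ i j, Val v (δ i (Y j)) (D i (p j)) := fun i j =>
    val_der ha (hδ i) ht (hδt i) (hY j)
  have hθY : ∀ j, Val v (t * θ (Y j)) 0 := fun j => val_tder hb ht hθ (hY j)
  have hGv : Val v G (MvPolynomial.aeval p F) := Val.aevalC hY F
  -- determinants
  have hW : ∀ (r₁ r₂ r₃ r₄ : Fin 4 → E) (s₁ s₂ s₃ s₄ : Fin 4 → Ω),
      (∀ j, Val v (r₁ j) (s₁ j)) → (∀ j, Val v (r₂ j) (s₂ j)) → (∀ j, Val v (r₃ j) (s₃ j)) →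
      (∀ j, Val v (r₄ j) (s₄ j)) → Val v (W r₁ r₂ r₃ r₄) (W s₁ s₂ s₃ s₄) := by
    intro r₁ r₂ r₃ r₄ s₁ s₂ s₃ s₄ h1 h2 h3 h4
    refine Val.det _ _ fun i j => ?_
    fin_cases i
    · exact h1 j
    · exact h2 j
    · exact h3 j
    · exact h4 j
  have hW0 : ∀ s₁ s₂ s₃ : Fin 4 → Ω, W s₁ s₂ s₃ (fun _ => 0) = 0 := by
    intro s₁ s₂ s₃
    rw [W_eq]
    ring
  constructor
  · intro h0
    have h1 := hW Y _ _ _ p _ _ (fun _ => 0) hY (hδY 0) (hδY 1) hθY
    rw [hW0] at h1
    have h2 : Ge v 0 G⁻¹ := Or.inr (by rw [v.ord_inv, h0]; simp)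
    rw [div_eq_inv_mul]
    exact Val.reg_mul h2 h1
  · intro hk
    have hFp : MvPolynomial.aeval p F = 0 := by
      refine hGv.uniq (Val.zero_iff.2 (Or.inr ?_))
      omega
    refine ⟨hFp, fun c hc => ?_⟩
    obtain ⟨g, hg⟩ : ∃ g : Fin 4 → E, g = fun l => MvPolynomial.aeval Y (MvPolynomial.pderiv l F) :=
      ⟨_, rfl⟩
    obtain ⟨C, hC⟩ : ∃ C : Fin 4 → E, C = fun l => algebraMap Ω E (c l) := ⟨_, rfl⟩
    have hCv : ∀ j, Val v (C j) (c j) := fun j => by rw [hC]; exact Val.const _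
    have hφ : Val v (∑ l, g l * C l) 1 := by
      rw [← hc]
      refine Val.sum _ _ _ fun l _ => ?_
      rw [hg]
      exact (Val.aevalC hY _).mul (hCv l)
    have e1 : ∑ l, g l * Y l = d * G := by rw [hg]; exact euler_gen hF Y
    have e2 : ∀ i, ∑ l, g l * δ i (Y l) = δ i G := by
      intro i
      rw [hg, hGdef, Pool.Agent.Y988.NT.der_aeval]
    have e3 : ∑ l, g l * (t * θ (Y l)) = t * θ G := by
      have h1 := Pool.Agent.Y988.NT.der_aeval (θ.restrictScalars ℂ) Y F
      have h2 : (θ.restrictScalars ℂ) (MvPolynomial.aeval Y F) = θ G := rfl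
      rw [h2] at h1
      rw [h1, Finset.mul_sum, hg]
      refine Finset.sum_congr rfl fun l _ => ?_
      show _ = t * (_ * θ (Y l))
      ring
    have hcr := W_cramer g C Y (fun j => δ 0 (Y j)) (fun j => δ 1 (Y j)) (fun j => t * θ (Y j))
    rw [e1, e2, e2, e3] at hcr
    have hcr2 : (∑ l, g l * C l) * (W Y (fun j => δ 0 (Y j)) (fun j => δ 1 (Y j))
        (fun j => t * θ (Y j)) / G) =
        d * W C (fun j => δ 0 (Y j)) (fun j => δ 1 (Y j)) (fun j => t * θ (Y j)) +
        δ 0 G / G * W Y C (fun j => δ 1 (Y j)) (fun j => t * θ (Y j)) +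
        δ 1 G / G * W Y (fun j => δ 0 (Y j)) C (fun j => t * θ (Y j)) +
        t * θ G / G * W Y (fun j => δ 0 (Y j)) (fun j => δ 1 (Y j)) C := by
      rw [← mul_div_assoc, hcr]
      field_simp
    have hreg : ∀ i, Ge v 0 (δ i G / G) := by
      intro i
      have h1 := ha Ω E (D i) (δ i) (hδ i) t v ht (hδt i) (v.ord G) G (Or.inr le_rfl)
      have h2 : Ge v (-v.ord G) G⁻¹ := Or.inr (by rw [v.ord_inv])
      have h3 := Ge.mul h1 h2
      rw [add_neg_cancel] at h3
      rwa [div_eq_mul_inv]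
    have k1 : Val v (d * W C (fun j => δ 0 (Y j)) (fun j => δ 1 (Y j)) (fun j => t * θ (Y j))) 0 := by
      refine Val.reg_mul (Ge.natCast d) ?_
      have := hW C _ _ _ c _ _ (fun _ => 0) hCv (hδY 0) (hδY 1) hθY
      rwa [hW0] at this
    have k2 : Val v (δ 0 G / G * W Y C (fun j => δ 1 (Y j)) (fun j => t * θ (Y j))) 0 := by
      refine Val.reg_mul (hreg 0) ?_
      have := hW Y C _ _ p c _ (fun _ => 0) hY hCv (hδY 1) hθY
      rwa [hW0] at this
    have k3 : Val v (δ 1 G / G * W Y (fun j => δ 0 (Y j)) C (fun j => t * θ (Y j))) 0 := by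
      refine Val.reg_mul (hreg 1) ?_
      have := hW Y _ C _ p _ c (fun _ => 0) hY (hδY 0) hCv hθY
      rwa [hW0] at this
    have k4 := (val_log hb ht hθ hG).mul (hW Y _ _ C p _ _ c hY (hδY 0) (hδY 1) hCv)
    have k5 := ((k1.add k2).add k3).add k4
    rw [← hcr2] at k5
    have k6 := (hφ.inv one_ne_zero).mul k5
    obtain ⟨hφ0, -⟩ := hφ.ord_eq one_ne_zero
    rw [← mul_assoc, inv_mul_cancel₀ hφ0, one_mul] at k6
    simpa using k6

end loc

end Pool.Agent.N849.CV
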