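import Pool.Agent.N849.CV.C2a

/-!
CV/C2, part 2: the Jacobian of two dependent functions; the places at infinity.
-/

set_option autoImplicit false
set_option linter.unusedSectionVars false

open FF Pool.Agent.W603.LV Pool.Agent.Y184.NT Pool.Agent.N162.CV IntermediateField

namespace Pool.Agent.N849.CV

open MvPolynomial in
/-- the degree drops -/
theorem totalDegree_pderiv_lt' {n : ℕ} (P : MvPolynomial (Fin n) ℂ) (i : Fin n)
    (h : pderiv i P ≠ 0) : (pderiv i P).totalDegree < P.totalDegree := by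
  classical
  obtain ⟨m, hm, hmax⟩ := Finset.exists_mem_eq_sup _ (support_nonempty.2 h)
    (fun s : Fin n →₀ ℕ => s.sum fun _ e => e)
  have h1 : (pderiv i P).totalDegree = m.sum fun _ e => e := hmax
  have h2 : coeff m (pderiv i P) ≠ 0 := mem_support_iff.1 hm
  rw [coeff_pderiv] at h2
  have h3 : coeff (m + Finsupp.single i 1) P ≠ 0 := fun h0 => h2 (by rw [h0]; simp)
  have h4 := le_totalDegree (mem_support_iff.2 h3)
  rw [Finsupp.sum_add_index' (by simp) (by simp)] at h4
  simp at h4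
  rw [h1]
  simpa [Finsupp.sum] using Nat.lt_of_succ_le h4

open MvPolynomial in
/-- all partial derivatives are zero -/
theorem const_of_pderiv {n : ℕ} (P : MvPolynomial (Fin n) ℂ) (h2 : ∀ i, pderiv i P = 0) :
    P = C (coeff 0 P) := by
  classical
  ext m
  rw [coeff_C]
  split_ifs with hm
  · rw [← hm]
  · obtain ⟨i, hi⟩ : ∃ i, m i ≠ 0 := by
      by_contra hcon
      push Not at hcon
      exact hm (Finsupp.ext fun i => (hcon i).symm)
    have h4 := congrArg (coeff (m - Finsupp.single i 1)) (h2 i)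
    rw [coeff_pderiv, coeff_zero] at h4
    have h5 : m - Finsupp.single i 1 + Finsupp.single i 1 = m :=
      tsub_add_cancel_of_le (by
        rw [Finsupp.single_le_iff]; omega)
    rw [h5] at h4
    rcases mul_eq_zero.1 h4 with h6 | h6
    · exact h6
    · exfalso
      have h7 : ((((m - Finsupp.single i 1 : Fin n →₀ ℕ) i : ℕ) : ℂ) + 1) ≠ 0 :=
        Nat.cast_add_one_ne_zero _
      exact h7 h6

/-- the Jacobian determinant of two algebraically dependent functions is zero -/
theorem jac_zero {K : Type} [Field K] [Algebra ℂ K] (y : Fin 2 → K)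
    (D : Fin 2 → Derivation ℂ K K) (N : ℕ) : ∀ h : MvPolynomial (Fin 2) ℂ, h.totalDegree < N →
    h ≠ 0 → MvPolynomial.aeval y h = 0 → D 0 (y 0) * D 1 (y 1) - D 0 (y 1) * D 1 (y 0) = 0 := by
  induction N with
  | zero => intro h hN; omega
  | succ N ih =>
    intro h hN h0 hy
    by_cases hall : ∀ i, MvPolynomial.aeval y (MvPolynomial.pderiv i h) = 0
    · by_cases hall2 : ∀ i, MvPolynomial.pderiv i h = 0
      · exfalso
        have h1 := const_of_pderiv h hall2
        rw [h1, MvPolynomial.aeval_C, map_eq_zero] at hy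
        apply h0
        rw [h1, hy, map_zero]
      · push Not at hall2
        obtain ⟨i, hi⟩ := hall2
        have h1 := totalDegree_pderiv_lt' h i hi
        exact ih _ (by omega) hi (hall i)
    · push Not at hall
      have h1 := Pool.Agent.Y988.NT.der_aeval (D 0) y h
      have h2 := Pool.Agent.Y988.NT.der_aeval (D 1) y h
      rw [hy, map_zero, Fin.sum_univ_two] at h1 h2
      obtain ⟨i, hi⟩ := hall
      by_cases hi0 : i = 0
      · subst hi0
        apply mul_left_cancel₀ hi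
        rw [mul_zero]
        linear_combination (-(D 1 (y 1))) * h1 + (D 0 (y 1)) * h2
      · have hi1 : i = 1 := by omega
        subst hi1
        apply mul_left_cancel₀ hi
        rw [mul_zero]
        linear_combination (D 1 (y 0)) * h1 - (D 0 (y 0)) * h2

/-- the polynomial `F (0, 1, Y, Z)` is not zero -/
theorem restr_ne {F : MvPolynomial (Fin 4) ℂ} {d : ℕ} (hF : F.IsHomogeneous d)
    (h1 : MvPolynomial.eval ![0, 0, 0, 1] F ≠ 0) :
    MvPolynomial.aeval (![0, 1, MvPolynomial.X 0, MvPolynomial.X 1] :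
      Fin 4 → MvPolynomial (Fin 2) ℂ) F ≠ 0 := by
  intro h0
  obtain ⟨q, hq⟩ : ∃ q : Polynomial ℂ, q = MvPolynomial.aeval
    (![0, Polynomial.X, 0, 1] : Fin 4 → Polynomial ℂ) F := ⟨_, rfl⟩
  have hqe : ∀ s : ℂ, q.eval s = MvPolynomial.eval ![0, s, 0, 1] F := by
    intro s
    rw [hq, ← Polynomial.coe_evalRingHom, MvPolynomial.aeval_def, MvPolynomial.hom_eval₂,
      MvPolynomial.eval, MvPolynomial.coe_eval₂Hom]
    congr 1
    · ext z
      simp
    · funext j
      fin_cases j <;> simp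
  have hs : ∀ s : ℂ, s ≠ 0 → q.eval s = 0 := by
    intro s hs
    rw [hqe]
    have h2 := congrArg (MvPolynomial.eval (![0, 1 / s] : Fin 2 → ℂ)) h0
    rw [map_zero, MvPolynomial.aeval_def, MvPolynomial.hom_eval₂] at h2
    have h3 := Pool.Agent.Y988.NT.aeval_smul_form hF s (![0, 1, 0, 1 / s] : Fin 4 → ℂ)
    have h4 : (fun l => s * (![0, 1, 0, 1 / s] : Fin 4 → ℂ) l) = ![0, s, 0, 1] := by
      funext j
      fin_cases j <;> simp [hs]
    have h5 : MvPolynomial.aeval (![0, 1, 0, 1 / s] : Fin 4 → ℂ) F = 0 := by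
      rw [MvPolynomial.aeval_def]
      refine Eq.trans ?_ h2
      congr 1
      · ext z
        simp
      · funext j
        fin_cases j <;> simp
    rw [h4, h5, mul_zero, MvPolynomial.aeval_eq_eval] at h3
    exact h3
  have hq0 : q = 0 := by
    apply Polynomial.eq_zero_of_infinite_isRoot
    refine Set.Infinite.mono (s := {s : ℂ | s ≠ 0}) (fun s hs' => hs s hs') ?_
    have : {s : ℂ | s ≠ 0} = ({0} : Set ℂ)ᶜ := by ext; simp
    rw [this]
    exact (Set.finite_singleton 0).infinite_compl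
  apply h1
  have := hqe 0
  rw [hq0, Polynomial.eval_zero] at this
  exact this.symm

section det

variable {R : Type} [CommRing R]

theorem W_scale (x : R) (a b c e : Fin 4 → R) :
    W (fun j => x * a j) (fun j => x * b j) (fun j => x * c j) (fun j => a j + x * e j) =
      x ^ 4 * W a b c e := by
  simp only [W_eq]
  ring

theorem W_row (t β γ : R) (a b c e : Fin 4 → R) :
    W a (fun j => b j + β * e j) (fun j => c j + γ * e j) (fun j => t * e j) = t * W a b c e := by
  simp only [W_eq]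
  ring

theorem W_last (t : R) (a b c e : Fin 4 → R) :
    W a b c (fun j => t * e j) = t * W a b c e := by
  simp only [W_eq]
  ring

theorem W_cyc (a b c e : Fin 4 → R) : W b c e a = -W a b c e := by
  simp only [W_eq]
  ring

end det

theorem det_rows {K : Type} [Field K] [Algebra ℂ K] (c p : Fin 4 → K)
    (D : Fin 2 → Derivation ℂ K K) :
    (rows c p D).det = W c p (fun j => D 0 (p j)) (fun j => D 1 (p j)) := by
  unfold W
  congr 1
  ext i j
  fin_cases i <;> rfl

/-- the value of a form at a multiple of a vector -/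
theorem aeval_smul {k K : Type} [Field k] [Field K] [Algebra k K] {n m : ℕ}
    {P : MvPolynomial (Fin n) k} (hh : P.IsHomogeneous m) (c : K) (y : Fin n → K) :
    MvPolynomial.aeval (fun l => c * y l) P = c ^ m * MvPolynomial.aeval y P := by
  classical
  rw [MvPolynomial.aeval_def, MvPolynomial.eval₂_eq', MvPolynomial.aeval_def,
    MvPolynomial.eval₂_eq', Finset.mul_sum]
  refine Finset.sum_congr rfl fun a ha => ?_
  have h1 : ∑ i, a i = m := by
    have h2 := hh (MvPolynomial.mem_support_iff.1 ha)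
    rw [← h2, Finsupp.weight_apply, Finsupp.sum_fintype _ _ fun i => by simp]
    simp
  simp only [mul_pow, Finset.prod_mul_distrib]
  rw [Finset.prod_pow_eq_pow_sum, h1]
  ring

section places

variable {Ω E : Type} [Field Ω] [Algebra ℂ Ω] [Field E] [Algebra ℂ E] [Algebra Ω E]
  [IsScalarTower ℂ Ω E] [IsAlgClosed Ω] [IsFF Ω E]

/-- a vector dual to the gradient -/
theorem dual_c {K : Type} [Field K] [Algebra ℂ K] {F : MvPolynomial (Fin 4) ℂ} (hs : Sm F)
    {p : Fin 4 → K} (hp : p 1 = 1) : ∃ c : Fin 4 → K,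
      ∑ l, MvPolynomial.aeval p (MvPolynomial.pderiv l F) * c l = 1 := by
  obtain ⟨M, A, hA⟩ := Pool.Agent.Y988.NT.null_cert hs 1
  refine ⟨fun l => MvPolynomial.aeval p (A l), ?_⟩
  have h1 := congrArg (MvPolynomial.aeval p) hA
  rw [map_pow, MvPolynomial.aeval_X, hp, one_pow, map_sum] at h1
  rw [h1]
  refine Finset.sum_congr rfl fun l _ => ?_
  rw [map_mul]
  ring

/-- the places at infinity -/
theorem inf_place (ha : StDERa) (hb : StDERb) {F : MvPolynomial (Fin 4) ℂ} {d m : ℕ} (hs : Sm F)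
    (hF : F.IsHomogeneous d) (hd : m + 4 = d) (hF1 : MvPolynomial.eval ![0, 0, 0, 1] F ≠ 0)
    {D : Fin 2 → Derivation ℂ Ω Ω} {δ : Fin 2 → Derivation ℂ E E}
    (hδ : ∀ i a, δ i (algebraMap Ω E a) = algebraMap Ω E (D i a)) {θ : Derivation Ω E E}
    {X : Fin 4 → E} (hX0 : X 0 = 1) (hθ : θ (X 1) = 1) (hδx : ∀ i, δ i (X 1) = 0)
    {P : MvPolynomial (Fin 4) Ω} (hP : P.IsHomogeneous m) {v : Place Ω E} (hv : v.ord (X 1) < 0)
    (hreg : ∀ i, Ge v 0 (X i / X 1)) (hf : MvPolynomial.aeval X F ≠ 0) :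
    Ge v 1 (X 1 * (MvPolynomial.aeval X P * W X (fun j => δ 0 (X j)) (fun j => δ 1 (X j))
      (fun j => θ (X j)) / MvPolynomial.aeval X F)) := by
  have hc0 : CharZero Ω := charZ
  obtain ⟨x, hx⟩ : ∃ x, x = X 1 := ⟨_, rfl⟩
  rw [← hx] at hθ hδx hv hreg ⊢
  have hx0 : x ≠ 0 := by
    rintro rfl
    rw [v.ord_zero] at hv
    exact lt_irrefl _ hv
  obtain ⟨Y, hY⟩ : ∃ Y : Fin 4 → E, Y = fun j => x⁻¹ * X j := ⟨_, rfl⟩
  have hXY : X = fun j => x * Y j := by
    funext j
    rw [hY]
    field_simp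
  have hYr : ∀ j, Ge v 0 (Y j) := by
    intro j
    have := hreg j
    rw [div_eq_inv_mul] at this
    rw [hY]
    exact this
  choose p hp using fun j => exists_const v (hYr j)
  have hpY : ∀ j, Val v (Y j) (p j) := hp
  obtain ⟨t, ht⟩ : ∃ t, t = x⁻¹ := ⟨_, rfl⟩
  have htv : 0 < v.ord t := by
    rw [ht, v.ord_inv]
    omega
  have hp0 : p 0 = 0 := by
    refine (hpY 0).uniq (Val.zero_iff.2 (Or.inr ?_))
    rw [hY]
    show 1 ≤ v.ord (x⁻¹ * X 0)
    rw [hX0, mul_one, ← ht]
    omega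
  have hp1 : p 1 = 1 := by
    refine (hpY 1).uniq ?_
    rw [hY]
    show Val v (x⁻¹ * X 1) 1
    rw [← hx, inv_mul_cancel₀ hx0]
    have := Val.const (v := v) (1 : Ω)
    rwa [map_one] at this
  -- the derivations
  obtain ⟨θ', hθ'⟩ : ∃ θ' : Derivation Ω E E, θ' = (-(x ^ 2)) • θ := ⟨_, rfl⟩
  have hθ'a : ∀ g, θ' g = -(x ^ 2) * θ g := by
    intro g
    rw [hθ']
    rfl
  have hθt : θ' t = 1 := by
    rw [hθ'a, ht, Derivation.leibniz_inv, hθ, smul_eq_mul]
    field_simp
  have hδt : ∀ i, δ i t = 0 := by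
    intro i
    rw [ht, Derivation.leibniz_inv, hδx, smul_zero]
  have hXd : ∀ i, (fun j => δ i (X j)) = fun j => x * δ i (Y j) := by
    intro i
    funext j
    rw [hXY]
    show δ i (x * Y j) = _
    rw [Derivation.leibniz, hδx, smul_zero, add_zero, smul_eq_mul]
  have hXθ : (fun j => θ (X j)) = fun j => Y j + x * θ (Y j) := by
    funext j
    rw [hXY]
    show θ (x * Y j) = _
    rw [Derivation.leibniz, hθ, smul_eq_mul, smul_eq_mul, mul_one, add_comm]
  have hW : W X (fun j => δ 0 (X j)) (fun j => δ 1 (X j)) (fun j => θ (X j)) =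
      x ^ 4 * W Y (fun j => δ 0 (Y j)) (fun j => δ 1 (Y j)) (fun j => θ (Y j)) := by
    rw [hXd, hXd, hXθ, ← W_scale, ← hXY]
  have hPX : MvPolynomial.aeval X P = x ^ m * MvPolynomial.aeval Y P := by
    conv_lhs => rw [hXY]
    rw [aeval_smul hP]
  have hFX : MvPolynomial.aeval X F = x ^ d * MvPolynomial.aeval Y F := by
    conv_lhs => rw [hXY]
    rw [aeval_smul hF]
  have hG : MvPolynomial.aeval Y F ≠ 0 := by
    intro h0
    apply hf
    rw [hFX, h0, mul_zero]
  have hWθ : x * W Y (fun j => δ 0 (Y j)) (fun j => δ 1 (Y j)) (fun j => θ (Y j)) =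
      -W Y (fun j => δ 0 (Y j)) (fun j => δ 1 (Y j)) (fun j => t * θ' (Y j)) := by
    have h1 : (fun j => t * θ' (Y j)) = fun j => (-x) * θ (Y j) := by
      funext j
      rw [hθ'a, ht]
      field_simp
    rw [h1, W_last]
    ring
  have hmain : x * (MvPolynomial.aeval X P * W X (fun j => δ 0 (X j)) (fun j => δ 1 (X j))
      (fun j => θ (X j)) / MvPolynomial.aeval X F) = -(MvPolynomial.aeval Y P *
      (W Y (fun j => δ 0 (Y j)) (fun j => δ 1 (Y j)) (fun j => t * θ' (Y j)) /
        MvPolynomial.aeval Y F)) := by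
    rw [hW, hPX, hFX, ← hd]
    have h1 : x * (x ^ m * MvPolynomial.aeval Y P * (x ^ 4 * W Y (fun j => δ 0 (Y j))
        (fun j => δ 1 (Y j)) (fun j => θ (Y j))) / (x ^ (m + 4) * MvPolynomial.aeval Y F)) =
        MvPolynomial.aeval Y P * ((x * W Y (fun j => δ 0 (Y j))
        (fun j => δ 1 (Y j)) (fun j => θ (Y j))) / MvPolynomial.aeval Y F) := by
      rw [pow_add]
      field_simp
    rw [h1, hWθ]
    ring
  rw [hmain]
  refine Ge.neg ?_
  have hPr : Ge v 0 (MvPolynomial.aeval Y P) := (Val.aeval hpY P).reg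
  rw [← Val.zero_iff]
  refine Val.reg_mul hPr ?_
  obtain ⟨h1, h2⟩ := local_val ha hb hF hδ htv hθt hδt hpY hG
  have hGr : 0 ≤ v.ord (MvPolynomial.aeval Y F) :=
    ((Val.aevalC hpY F).reg).resolve_left hG
  rcases hGr.eq_or_lt with hk | hk
  · exact h1 hk.symm
  · obtain ⟨hFp, h3⟩ := h2 hk
    obtain ⟨c, hc⟩ := dual_c hs hp1
    have h4 := h3 c hc
    have hjac := jac_zero ![p 2, p 3] D _ _ (Nat.lt_succ_self _) (restr_ne hF hF1) (by
      rw [MvPolynomial.comp_aeval_apply]
      refine Eq.trans ?_ hFp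
      congr 2
      funext j
      fin_cases j <;> simp [hp0, hp1])
    have hD : ∀ i, D i (p 0) = 0 ∧ D i (p 1) = 0 := by
      intro i
      rw [hp0, hp1]
      exact ⟨map_zero _, (D i).map_one_eq_zero⟩
    have h5 : W p (fun j => D 0 (p j)) (fun j => D 1 (p j)) c = 0 := by
      rw [W_eq, (hD 0).1, (hD 0).2, (hD 1).1, (hD 1).2, hp0, hp1]
      simp only [Matrix.cons_val_zero, Matrix.cons_val_one] at hjac
      linear_combination (-(c 0)) * hjac
    rwa [h5, mul_zero] at h4

end places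

end Pool.Agent.N849.CV
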